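import Pool.Agent.H51.MFQ.S1

/-!
# Board mfq: SPL, NI2
-/

set_option autoImplicit false

open Module

namespace Pool.MFQ

theorem t_spl (h1 : STVStmt) (h2 : VRKStmt) (h3 : METStmt) : SPLStmt := by
  intro 𝔤 _ _ _ V H hV hH hHV
  have hdec : ∀ x : 𝔤, ∃ h ∈ H, ∃ v ∈ V, h + v = x := by
    intro x
    have hx : x ∈ H ⊔ V.toSubmodule := by rw [hHV]; trivial
    obtain ⟨h, hh, v, hv, e⟩ := Submodule.mem_sup.mp hx
    exact ⟨h, hh, v, hv, e⟩
  have hbr : ∀ x y : 𝔤, ⁅x, y⁆ ∈ V := by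
    intro x y
    obtain ⟨h, hh, v, hv, rfl⟩ := hdec x
    obtain ⟨h', hh', v', hv', rfl⟩ := hdec y
    rw [add_lie, lie_add, hH h hh h' hh', zero_add]
    refine add_mem (lie_mem_right ℂ 𝔤 V h v' hv') ?_
    exact lie_mem_left ℂ 𝔤 V v (h' + v') hv
  refine ⟨h3 𝔤 V hV hbr, ?_⟩
  -- the rank formula
  have key : ∀ ξ : Dual ℂ 𝔤, finrank ℂ (stab ξ) + 2 * finrank ℂ V.toSubmodule =
      finrank ℂ 𝔤 + 2 * finrank ℂ (stab ξ ⊓ V.toSubmodule : Submodule ℂ 𝔤) := by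
    intro ξ
    have hW : ∀ y, y ∈ stab ξ ⊔ V.toSubmodule ↔ ∀ v ∈ V, ξ ⁅y, v⁆ = 0 := by
      intro y
      rw [h1 𝔤 V hV ξ y]
      refine ⟨fun h => h.1, fun hy => ⟨hy, ?_⟩⟩
      intro z hz
      obtain ⟨h, hh, v, hv, rfl⟩ := hdec y
      obtain ⟨h', hh', v', hv', rfl⟩ := hdec z
      have e1 := hy v' hv'
      have e2 := hz v hv
      rw [add_lie, hV v hv v' hv', add_zero] at e1
      rw [add_lie, hV v' hv' v hv, add_zero] at e2
      rw [add_lie, lie_add, lie_add, hH h hh h' hh', hV v hv v' hv', zero_add, add_zero,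
        map_add, e1, zero_add, ← lie_skew, map_neg, e2, neg_zero]
    have e1 := h2 𝔤 V ξ (stab ξ ⊔ V.toSubmodule) hW
    have e2 := Submodule.finrank_sup_add_finrank_inf_eq (stab ξ) V.toSubmodule
    omega
  intro a ha
  refine ⟨ha, fun ξ => ?_⟩
  have e1 := key a
  have e2 := key ξ
  have e3 := ha ξ
  omega

theorem t_ni2 (h3 : METStmt) : NI2Stmt := by
  intro 𝔤 _ _ _ hn
  have hc : ∀ x : 𝔤, x ∈ LieAlgebra.center ℂ 𝔤 ↔ ∀ y : 𝔤, ⁅y, x⁆ = 0 := by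
    intro x
    exact LieModule.mem_maxTrivSubmodule ℂ 𝔤 𝔤 x
  refine ⟨LieAlgebra.center ℂ 𝔤, ?_, ?_, ?_⟩
  · intro x _ y hy
    exact (hc y).mp hy x
  · apply h3
    · intro x _ y hy
      exact (hc y).mp hy x
    · intro x y
      rw [hc]
      intro z
      rw [← lie_skew, hn x y z, neg_zero]
  · intro a ha
    refine ⟨ha, fun ξ => ?_⟩
    have hst : ∀ ξ : Dual ℂ 𝔤, stab ξ ⊓ (LieAlgebra.center ℂ 𝔤).toSubmodule =
        (LieAlgebra.center ℂ 𝔤).toSubmodule := by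
      intro ξ
      rw [inf_eq_right]
      intro x hx y
      have := (hc x).mp hx y
      rw [← lie_skew, this, neg_zero, map_zero]
    rw [hst, hst]

end Pool.MFQ
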