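import Pool.Agent.H51.MFQ.S1

/-!
# Board mfq: TAK
-/

set_option autoImplicit false

open Module

namespace Pool.MFQ

theorem t_tak (h1 : STVStmt) (h2 : VINStmt) : TAKStmt := by
  intro 𝔤 _ _ _ K V ε hT
  obtain ⟨hV, hKV, hinj, hrg, hbr⟩ := hT
  -- decomposition
  have hdec : ∀ x : 𝔤, ∃ (k y : K), (k : 𝔤) + ε y = x := by
    intro x
    have hx : x ∈ K.toSubmodule ⊔ V.toSubmodule := by rw [hKV.sup_eq_top]; trivial
    obtain ⟨k, hk, v, hv, e⟩ := Submodule.mem_sup.mp hx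
    rw [← hrg] at hv
    obtain ⟨y, rfl⟩ := hv
    exact ⟨⟨k, hk⟩, y, e⟩
  have hεV : ∀ y : K, ε y ∈ V := by
    intro y
    have : ε y ∈ V.toSubmodule := by rw [← hrg]; exact ⟨y, rfl⟩
    exact this
  have hVε : ∀ v ∈ V, ∃ y : K, ε y = v := by
    intro v hv
    have : v ∈ V.toSubmodule := hv
    rw [← hrg] at this
    exact this
  have hee : ∀ y z : K, ⁅ε y, ε z⁆ = 0 := fun y z => hV _ (hεV y) _ (hεV z)
  have hbr' : ∀ x y : K, ⁅ε y, (x : 𝔤)⁆ = - ε ⁅x, y⁆ := by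
    intro x y
    rw [← lie_skew, hbr]
  -- the functionals on `K`
  let q : Dual ℂ 𝔤 → Dual ℂ K := fun ξ => ξ ∘ₗ ε
  have hq : ∀ ξ (y : K), q ξ y = ξ (ε y) := fun ξ y => rfl
  -- `stab ξ ∩ V`
  have hA : ∀ ξ : Dual ℂ 𝔤, (stab ξ ⊓ V.toSubmodule : Submodule ℂ 𝔤) = (stab (q ξ)).map ε := by
    intro ξ
    ext v
    constructor
    · rintro ⟨hv1, hv2⟩
      obtain ⟨y, rfl⟩ := hVε v hv2
      refine ⟨y, ?_, rfl⟩
      intro k
      have := hv1 (k : 𝔤)
      rw [hbr', map_neg, neg_eq_zero] at this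
      rw [hq, ← lie_skew, map_neg, map_neg, this, neg_zero]
    · rintro ⟨y, hy, rfl⟩
      refine ⟨?_, hεV y⟩
      intro z
      obtain ⟨k, w, rfl⟩ := hdec z
      rw [lie_add, hee, add_zero, hbr', map_neg, ← hq, ← lie_skew, map_neg, neg_neg]
      exact hy k
  -- the subspace `W`
  let W : Dual ℂ 𝔤 → Submodule ℂ K := fun ξ =>
    { carrier := {k | k ∈ stab (q ξ) ∧ ∀ k' ∈ stab (q ξ), ξ (⁅k, k'⁆ : K) = 0}
      add_mem' := by
        rintro a b ⟨ha, ha'⟩ ⟨hb, hb'⟩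
        refine ⟨add_mem ha hb, fun k' hk' => ?_⟩
        rw [add_lie, K.coe_add, map_add, ha' k' hk', hb' k' hk', add_zero]
      zero_mem' := by
        refine ⟨zero_mem _, fun k' _ => ?_⟩
        rw [zero_lie, K.coe_zero, map_zero]
      smul_mem' := by
        rintro c a ⟨ha, ha'⟩
        refine ⟨Submodule.smul_mem _ c ha, fun k' hk' => ?_⟩
        rw [smul_lie, K.coe_smul, map_smul, ha' k' hk', smul_zero] }
  have hWle : ∀ ξ, W ξ ≤ stab (q ξ) := fun ξ k hk => hk.1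
  have hWm : ∀ ξ (k : K), k ∈ W ξ ↔ k ∈ stab (q ξ) ∧ ∀ k' ∈ stab (q ξ), ξ (⁅k, k'⁆ : K) = 0 :=
    fun ξ k => Iff.rfl
  have hB : ∀ (ξ : Dual ℂ 𝔤) (k y : K), (k : 𝔤) + ε y ∈ stab ξ ⊔ V.toSubmodule ↔ k ∈ W ξ := by
    intro ξ k y
    have hg : ∀ (k y : K), (∀ v ∈ V, ξ ⁅(k : 𝔤) + ε y, v⁆ = 0) ↔ k ∈ stab (q ξ) := by
      intro k y
      constructor
      · intro h z
        have := h (ε z) (hεV z)
        rw [add_lie, hee, add_zero, hbr] at this
        exact this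
      · intro h v hv
        obtain ⟨z, rfl⟩ := hVε v hv
        rw [add_lie, hee, add_zero, hbr]
        exact h z
    rw [h1 𝔤 V hV ξ, hg, hWm]
    refine and_congr_right fun hk => ?_
    constructor
    · intro h k' hk'
      have := h (k' : 𝔤) (by
        have := (hg k' 0).mpr hk'
        rwa [map_zero, add_zero] at this)
      rw [add_lie, hbr', map_add, map_neg, ← hq] at this
      have e : q ξ ⁅k', y⁆ = 0 := hk' y
      rw [e, neg_zero, add_zero] at this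
      rwa [K.coe_bracket]
    · intro h z hz
      obtain ⟨k', y', rfl⟩ := hdec z
      have hk' : k' ∈ stab (q ξ) := (hg k' y').mp hz
      have e : q ξ ⁅k', y⁆ = 0 := hk' y
      have e' : q ξ ⁅k, y'⁆ = 0 := hk y'
      have e'' := h k' hk'
      rw [K.coe_bracket] at e''
      rw [add_lie, lie_add, lie_add, hee, hbr', hbr, add_zero, map_add, map_add, map_neg, ← hq,
        ← hq, e, e', e'']
      simp
  -- dimension of `stab ξ + V`
  have hdimV : finrank ℂ V.toSubmodule = finrank ℂ K := by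
    rw [← hrg]
    exact LinearMap.finrank_range_of_inj hinj
  have hC : ∀ ξ : Dual ℂ 𝔤, (stab ξ ⊔ V.toSubmodule : Submodule ℂ 𝔤) =
      (W ξ).map K.toSubmodule.subtype ⊔ V.toSubmodule := by
    intro ξ
    apply le_antisymm
    · intro x hx
      obtain ⟨k, y, rfl⟩ := hdec x
      have hk := (hB ξ k y).mp hx
      exact Submodule.add_mem_sup ⟨k, hk, rfl⟩ (hεV y)
    · rw [sup_le_iff]
      refine ⟨?_, le_sup_right⟩
      rintro x ⟨k, hk, rfl⟩
      have := (hB ξ k 0).mpr hk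
      rwa [map_zero, add_zero] at this
  have hD : ∀ ξ : Dual ℂ 𝔤, finrank ℂ (stab ξ ⊔ V.toSubmodule : Submodule ℂ 𝔤) =
      finrank ℂ (W ξ) + finrank ℂ V.toSubmodule := by
    intro ξ
    rw [hC]
    have e := Submodule.finrank_sup_add_finrank_inf_eq
      ((W ξ).map K.toSubmodule.subtype) V.toSubmodule
    have hd : ((W ξ).map K.toSubmodule.subtype ⊓ V.toSubmodule : Submodule ℂ 𝔤) = ⊥ := by
      rw [eq_bot_iff, ← hKV.inf_eq_bot]
      refine inf_le_inf_right _ ?_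
      rintro x ⟨k, _, rfl⟩
      exact k.2
    rw [hd, finrank_bot, add_zero] at e
    rw [e]
    congr 1
    exact (LinearEquiv.finrank_eq (Submodule.equivMapOfInjective K.toSubmodule.subtype
      K.toSubmodule.injective_subtype (W ξ))).symm
  have hE : ∀ ξ : Dual ℂ 𝔤, finrank ℂ (stab ξ ⊓ V.toSubmodule : Submodule ℂ 𝔤) =
      finrank ℂ (stab (q ξ)) := by
    intro ξ
    rw [hA]
    exact (LinearEquiv.finrank_eq (Submodule.equivMapOfInjective ε hinj (stab (q ξ)))).symm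
  have hF : ∀ ξ : Dual ℂ 𝔤, finrank ℂ (stab ξ) = finrank ℂ (W ξ) + finrank ℂ (stab (q ξ)) := by
    intro ξ
    have e := Submodule.finrank_sup_add_finrank_inf_eq (stab ξ) V.toSubmodule
    rw [hD, hE] at e
    omega
  -- a regular element of the dual of `K`
  obtain ⟨q0, hq0⟩ : ∃ q0 : Dual ℂ K, IsReg q0 := by
    have hex : ∃ n, ∃ p : Dual ℂ K, finrank ℂ (stab p) = n := ⟨_, 0, rfl⟩
    classical
    obtain ⟨p, hp⟩ := Nat.find_spec hex
    refine ⟨p, fun p' => ?_⟩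
    rw [hp]
    exact Nat.find_min' hex ⟨p', rfl⟩
  -- lower bound for all, equality for regular elements
  have hW1 : ∀ ξ : Dual ℂ 𝔤, finrank ℂ (stab q0) ≤ finrank ℂ (W ξ) := by
    intro ξ
    refine (h2 K q0 hq0).1 (q ξ) (ξ ∘ₗ K.toSubmodule.subtype) (W ξ) ?_
    intro x
    exact hWm ξ x
  -- extension of `q0`
  obtain ⟨ξ0, hξ0, hξ0'⟩ : ∃ ξ0 : Dual ℂ 𝔤, q ξ0 = q0 ∧ ∀ k : K, ξ0 k = 0 := by
    let pr : 𝔤 →ₗ[ℂ] V.toSubmodule := Submodule.projectionOnto V.toSubmodule K.toSubmodule hKV.symm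
    let ei : K ≃ₗ[ℂ] V.toSubmodule := (LinearEquiv.ofInjective ε hinj).trans
      (LinearEquiv.ofEq _ _ hrg)
    refine ⟨q0 ∘ₗ ei.symm.toLinearMap ∘ₗ pr, ?_, ?_⟩
    · ext y
      rw [hq]
      have e1 : pr (ε y) = ei y := by
        have : (ε y) = ((ei y : V.toSubmodule) : 𝔤) := rfl
        rw [this]
        exact Submodule.projectionOnto_apply_left hKV.symm (ei y)
      show q0 (ei.symm (pr (ε y))) = q0 y
      rw [e1, LinearEquiv.symm_apply_apply]
    · intro k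
      have e1 : pr (k : 𝔤) = 0 :=
        (Submodule.projectionOnto_apply_eq_zero_iff hKV.symm).mpr k.2
      show q0 (ei.symm (pr (k : 𝔤))) = 0
      rw [e1, map_zero, map_zero]
  have hreg0 : finrank ℂ (stab ξ0) ≤ finrank ℂ (stab q0) + finrank ℂ (stab q0) := by
    rw [hF ξ0, hξ0]
    have : finrank ℂ (W ξ0) ≤ finrank ℂ (stab (q ξ0)) := Submodule.finrank_mono (hWle ξ0)
    rw [hξ0] at this
    omega
  have hR : ∀ a : Dual ℂ 𝔤, IsReg a → finrank ℂ (W a) = finrank ℂ (stab q0) ∧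
      finrank ℂ (stab (q a)) = finrank ℂ (stab q0) := by
    intro a ha
    have e1 := ha ξ0
    have e2 := hF a
    have e3 := hW1 a
    have e4 := hq0 (q a)
    omega
  have hS : ∀ a : Dual ℂ 𝔤, IsReg a → W a = stab (q a) := by
    intro a ha
    obtain ⟨e1, e2⟩ := hR a ha
    exact Submodule.eq_of_le_of_finrank_eq (hWle a) (by rw [e1, e2])
  refine ⟨?_, ?_⟩
  · intro ξ ξ' hξ hξ' hag
    rw [hC, hC, hS ξ hξ.1, hS ξ' hξ'.1]
    have : q ξ = q ξ' := by
      ext y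
      exact hag _ (hεV y)
    rw [this]
  · intro a ha
    refine ⟨ha, fun ξ => ?_⟩
    rw [hE, hE, (hR a ha).2]
    exact hq0 (q ξ)

end Pool.MFQ
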